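import Pool.Agent.Q32.SK.Stm2

set_option autoImplicit false

/-! Project SK (helper32), job BA4: the base stage for 4-tournaments with triangle-free graphs. -/

namespace Q175.SK

open Function Q32.SK

theorem p4_order : ∀ g : Equiv.Perm (Fin 4), Equiv.Perm.sign g = 1 → g * g = 1 ∨ g * (g * g) = 1 := by
  decide

theorem p4_invol : ∀ g : Equiv.Perm (Fin 4), g * g = 1 → (∀ i, g i ≠ i) →
    Equiv.Perm.sign g = 1 := by
  decide

theorem p4_cube : ∀ g : Equiv.Perm (Fin 4), g * (g * g) = 1 → Equiv.Perm.sign g = 1 := by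
  decide

theorem p4_fix : ∀ g : Equiv.Perm (Fin 4), g * (g * g) = 1 → ∃ i, g i = i := by
  decide

theorem p4_uniq : ∀ g : Equiv.Perm (Fin 4), Equiv.Perm.sign g = 1 → g ≠ 1 →
    ∀ i : Fin 4, g i = i → ∀ j : Fin 4, g j = j → i = j := by
  decide

theorem p4_nofix : ∀ g : Equiv.Perm (Fin 4), Equiv.Perm.sign g = 1 → g * g = 1 → g ≠ 1 →
    ∀ i, g i ≠ i := by
  decide

abbrev A4 : Type := alternatingGroup (Fin 4)

abbrev M4 : Type := Ex A4 (Fin 4) ℕ

theorem A4_sign (g : A4) : Equiv.Perm.sign (g : Equiv.Perm (Fin 4)) = 1 :=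
  Equiv.Perm.mem_alternatingGroup.1 g.2

theorem A4_ne {g : A4} (h : g ≠ 1) : (g : Equiv.Perm (Fin 4)) ≠ 1 := fun h' => h (Subtype.ext h')

theorem M4_old (g : A4) (x : Fin 4) :
    g • (Ex.old ℕ x : M4) = Ex.old ℕ ((g : Equiv.Perm (Fin 4)) x) := rfl

/-- the fixed points -/
theorem M4_fixed {g : A4} (hg : g ≠ 1) {x : M4} (h : g • x = x) :
    ∃ i : Fin 4, x = Ex.old ℕ i ∧ (g : Equiv.Perm (Fin 4)) i = i := by
  rcases Ex.cases x with ⟨i, rfl⟩ | ⟨h', j, rfl⟩
  · refine ⟨i, rfl, ?_⟩
    rw [M4_old] at h
    exact Ex.old_inj h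
  · exfalso
    rw [Ex.smul_new] at h
    have := (Ex.new_inj h).1
    exact hg (mul_eq_right.1 this)

theorem M4_fixed_uniq {g : A4} (hg : g ≠ 1) {x y : M4} (hx : g • x = x) (hy : g • y = y) :
    x = y := by
  obtain ⟨i, rfl, hi⟩ := M4_fixed hg hx
  obtain ⟨j, rfl, hj⟩ := M4_fixed hg hy
  exact congrArg _ (p4_uniq _ (A4_sign g) (A4_ne hg) i hi j hj)

/-- the permutation induced on a tuple -/
theorem perm_of_tuple {G M : Type} [Group G] [MulAction G M] (g : G) (a : Fin 4 → M)
    (ha : Injective a) (h : ∀ i, ∃ j, g • a i = a j) :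
    ∃ σ : Equiv.Perm (Fin 4), ∀ i, g • a i = a (σ i) := by
  choose f hf using h
  have hfi : Injective f := by
    intro i j hij
    have : g • a i = g • a j := by rw [hf, hf, hij]
    exact ha (MulAction.injective g this)
  exact ⟨Equiv.ofBijective f (Finite.injective_iff_bijective.1 hfi), hf⟩

theorem perm_cube {G M : Type} [Group G] [MulAction G M] {g : G} {a : Fin 4 → M}
    (ha : Injective a) {σ : Equiv.Perm (Fin 4)} (h : ∀ i, g • a i = a (σ i))
    (hg : g * (g * g) = 1) : σ * (σ * σ) = 1 := by
  ext i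
  have h1 : (g * (g * g)) • a i = a i := by rw [hg, one_smul]
  rw [mul_smul, mul_smul, h, h, h] at h1
  have := ha h1
  simpa using congrArg Fin.val this

theorem perm_sq {G M : Type} [Group G] [MulAction G M] {g : G} {a : Fin 4 → M}
    (ha : Injective a) {σ : Equiv.Perm (Fin 4)} (h : ∀ i, g • a i = a (σ i))
    (hg : g * g = 1) : σ * σ = 1 := by
  ext i
  have h1 : (g * g) • a i = a i := by rw [hg, one_smul]
  rw [mul_smul, h, h] at h1
  have := ha h1
  simpa using congrArg Fin.val this

theorem A4_cube {g : A4} (hg : g ≠ 1) {x : M4} (h : g • x = x) : g * (g * g) = 1 := by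
  obtain ⟨i, rfl, hi⟩ := M4_fixed hg h
  rcases p4_order g (A4_sign g) with h' | h'
  · exact absurd hi (p4_nofix g (A4_sign g) h' (A4_ne hg) i)
  · exact Subtype.ext h'

theorem ba4 : S_BA4 := by
  intro htx
  obtain ⟨r, hr, hinv, -⟩ := htx 4 (alternatingGroup (Fin 4)) A4 M4 ∅ (fun _ => False)
    (fun e he => absurd he (Set.notMem_empty e)) (fun e he => absurd he (Set.notMem_empty e))
    (fun e he => absurd he (Set.notMem_empty e)) (fun e he => absurd he (Set.notMem_empty e))
    (fun e he => absurd he (Set.notMem_empty e)) (fun e he => absurd he (Set.notMem_empty e))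
    (by
      intro e _ he
      refine ⟨1, fun g π h => ?_⟩
      have h' : ∀ i, g • e i = e (π i) := h
      rw [Equiv.Perm.mem_alternatingGroup]
      by_cases hg : g = 1
      · subst hg
        have : π = 1 := by
          ext i
          have h1 := h' i
          rw [one_smul] at h1
          simpa using congrArg Fin.val (he h1).symm
        rw [this]
        simp
      · rcases p4_order g (A4_sign g) with h1 | h1
        · have h2 : g * g = 1 := Subtype.ext h1
          refine p4_invol π (perm_sq he h' h2) (fun i hi => ?_)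
          have h3 := h' i
          rw [hi] at h3
          obtain ⟨j, _, hj⟩ := M4_fixed hg h3
          exact p4_nofix g (A4_sign g) h1 (A4_ne hg) j hj
        · exact p4_cube π (perm_cube he h' (Subtype.ext h1)))
  have : Infinite M4 := Infinite.of_injective (fun n : ℕ => Ex.new (Fin 4) (1 : A4) n)
    (fun m n h => (Ex.new_inj h).2)
  have : Countable M4 := by
    unfold M4 Ex
    infer_instance
  have good : Good 4 C4 A4 M4 (Str.mk2 r (fun _ _ => False)) := by
    refine ⟨⟨hr, fun x h => h, fun x y h => h, fun x y z h => h.1⟩, ?_, ?_, ?_⟩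
    · intro g
      funext i v
      rcases i with i | i
      · exact congrFun (congrFun (hinv g) i) v
      · rfl
    · intro g a ha h
      by_contra hg
      have h0 := M4_fixed_uniq hg (h 0) (h 1)
      have := ha h0
      simp at this
    · intro g D hcard hD hg x hx
      -- enumerate `D`
      have hcube := A4_cube hg hx
      set f := D.equivFinOfCardEq hcard with hf
      set a : Fin 4 → M4 := fun i => (f.symm i : M4) with ha
      have hai : Injective a := fun i j h => f.symm.injective (Subtype.ext h)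
      have hmem : ∀ i, a i ∈ D := fun i => (f.symm i).2
      have hsur : ∀ y ∈ D, ∃ i, y = a i := fun y hy => ⟨f ⟨y, hy⟩, by rw [ha]; simp⟩
      obtain ⟨σ, hσ⟩ := perm_of_tuple g a hai (fun i => hsur _ (hD _ (hmem i)))
      obtain ⟨i, hi⟩ := p4_fix σ (perm_cube hai hσ hcube)
      have h1 := hσ i
      rw [hi] at h1
      rw [M4_fixed_uniq hg hx h1]
      exact hmem i
  refine ⟨@Stg.mk 4 _ _ C4 A4 M4 inferInstance inferInstance inferInstance inferInstance
    inferInstance _ good, MonoidHom.id _, fun i => Ex.old ℕ i, fun i j h => Ex.old_inj h,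
    fun g i => rfl, fun i j h => h⟩

end Q175.SK
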