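import Pool.Agent.Q32.SK.Stm2

set_option autoImplicit false

/-! Project SK (helper32), jobs EPR, BAR, HFP. -/

namespace Q175.SK

open Function Q32.SK

theorem epr : S_EPR := by
  intro k I I' ar ar' 𝒞 𝒞' h1 h2 G M _ _ _ _ _ r hr J _ S C D hD
  have e1 : Good k 𝒞 G M r.fst := ⟨hr.cls.1, fun g => congrArg Str.fst (hr.inv g), hr.shp, hr.fre⟩
  have e2 : Good k 𝒞' G M r.snd := ⟨hr.cls.2, fun g => congrArg Str.snd (hr.inv g), hr.shp, hr.fre⟩
  have a1 : Adm 𝒞 r.fst S C D.fst := ⟨hD.finS, hD.finC, hD.inv, hD.cls.1,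
    fun s hs i v hv => hD.Dinv s hs (Sum.inl i) v hv, fun i v hv => hD.Dr (Sum.inl i) v hv⟩
  have a2 : Adm 𝒞' r.snd S C D.snd := ⟨hD.finS, hD.finC, hD.inv, hD.cls.2,
    fun s hs i v hv => hD.Dinv s hs (Sum.inr i) v hv, fun i v hv => hD.Dr (Sum.inr i) v hv⟩
  obtain ⟨r1, k1, i1, p1, q1⟩ := h1 G M r.fst e1 J S C D.fst a1
  obtain ⟨r2, k2, i2, p2, q2⟩ := h2 G M r.snd e2 J S C D.snd a2
  refine ⟨Str.mk2 r1 r2, ⟨k1, k2⟩, fun g => ?_, ?_, ?_⟩
  · funext i v
    rcases i with i | i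
    · exact congrFun (congrFun (i1 g) i) v
    · exact congrFun (congrFun (i2 g) i) v
  · funext i v
    rcases i with i | i
    · exact congrFun (congrFun p1 i) v
    · exact congrFun (congrFun p2 i) v
  · rintro (i | i) v hv
    · exact q1 i v hv
    · exact q2 i v hv

/-- the trivial action on `ℕ` -/
@[instance_reducible]
def trivAct : MulAction Unit ℕ where
  smul _ n := n
  one_smul _ := rfl
  mul_smul _ _ _ := rfl

theorem bar : S_BAR := by
  intro k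
  have hmet : IsMet (fun x y : ℕ => if x = y then (0 : ℚ) else 1) := by
    refine ⟨fun x => by simp, fun x y h => by simp [h], fun x y => ?_, fun x y z => ?_⟩
    · simp only [eq_comm]
    · split_ifs <;> norm_num
      omega
  refine ⟨@Stg.mk k ℚ (fun _ => 2) RM Unit ℕ inferInstance trivAct inferInstance inferInstance
    inferInstance (mstr (fun x y : ℕ => if x = y then (0 : ℚ) else 1)) ?_⟩
  let _ := trivAct
  exact ⟨⟨_, hmet, rfl⟩, fun g => rfl, fun g a _ _ => rfl, fun g D _ _ h => absurd rfl h⟩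

theorem hfp : S_HFP := by
  intro k Θ A₀ φ₀ ι₀ hι₀ heq B ⟨e⟩ r₀ hr₀
  obtain ⟨k1, k2, k3⟩ := hr₀
  obtain ⟨h1, h2, h3⟩ := B.good.cls
  set ι : Fin k → B.M := fun i => e.ι (ι₀ i) with hι
  have hιi : Injective ι := fun x y h => hι₀ (e.inj h)
  have hact : ∀ (θ : Θ) i, e.φ (φ₀ θ) • ι i = ι ((θ : Equiv.Perm (Fin k)) i) := by
    intro θ i
    rw [hι]
    dsimp only
    rw [← e.eqv, heq]
  obtain ⟨π₁, hπ₁⟩ := h2 ι hιi
  obtain ⟨π₀, hπ₀⟩ := k2 (fun i => i) (fun x y h => h)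
  have hinv : ∀ (g : B.G) (v : Fin k → B.M), B.r () (fun l => g • v l) ↔ B.r () v := by
    intro g v
    have := congrFun (congrFun (B.good.inv g) ()) v
    exact Eq.to_iff this
  have hconj : ∀ θ ∈ Θ, π₁⁻¹ * θ * π₁ ∈ Θ := by
    intro θ hθ
    have e1 := (hinv (e.φ (φ₀ ⟨θ, hθ⟩)) (fun i => ι (π₁ i))).2 hπ₁
    have e2 := (h3 (fun i => ι (π₁ i)) (π₁⁻¹ * θ * π₁) hπ₁).1
    apply e2
    convert e1 using 2 with i
    rw [hact]
    simp
  -- the converse, by finiteness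
  have hconj2 : ∀ θ ∈ Θ, π₁ * θ * π₁⁻¹ ∈ Θ := by
    intro θ hθ
    let F : Θ → Θ := fun x => ⟨π₁⁻¹ * x * π₁, hconj x x.2⟩
    have hF : Injective F := by
      intro x y h
      have h' : π₁⁻¹ * (x : Equiv.Perm (Fin k)) * π₁ = π₁⁻¹ * y * π₁ := congrArg Subtype.val h
      exact Subtype.ext (mul_left_cancel (mul_right_cancel h'))
    have hS : Surjective F := Finite.surjective_of_injective hF
    obtain ⟨x, hx⟩ := hS ⟨θ, hθ⟩
    have hx' : π₁⁻¹ * (x : Equiv.Perm (Fin k)) * π₁ = θ := congrArg Subtype.val hx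
    rw [← hx']
    have : π₁ * (π₁⁻¹ * (x : Equiv.Perm (Fin k)) * π₁) * π₁⁻¹ = x := by group
    rw [this]
    exact x.2
  set a : Fin k → B.M := fun i => ι (π₁ (π₀⁻¹ i)) with ha
  have hai : Injective a := fun x y h => (π₀⁻¹).injective (π₁.injective (hιi h))
  have hperm : ∀ σ : Equiv.Perm (Fin k), B.r () (fun i => a (σ i)) ↔ π₀⁻¹ * σ ∈ Θ := by
    intro σ
    rw [← h3 (fun i => ι (π₁ i)) (π₀⁻¹ * σ) hπ₁]
    rfl
  have hperm0 : ∀ σ : Equiv.Perm (Fin k), r₀ () (fun i => σ i) ↔ π₀⁻¹ * σ ∈ Θ := by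
    intro σ
    rw [← k3 (fun i => π₀ i) (π₀⁻¹ * σ) hπ₀]
    have : (fun i => π₀ ((π₀⁻¹ * σ) i)) = fun i => σ i := by
      funext i
      simp
    rw [this]
  refine ⟨B, Ext.idm B, a, ⟨hai, ?_⟩, ?_⟩
  · intro π hπ
    have e1 := congrFun (congrFun hπ ()) (fun i => π₀ i)
    have e2 : B.r () (fun i => a (π (π₀ i))) ↔ B.r () (fun i => a (π₀ i)) := Eq.to_iff e1
    have e3 : π₀⁻¹ * (π * π₀) ∈ Θ := by
      rw [← hperm]
      refine e2.2 ?_
      rw [hperm]
      simp [Θ.one_mem]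
    refine ⟨e.φ (φ₀ ⟨π₁ * (π₀⁻¹ * (π * π₀)) * π₁⁻¹, hconj2 _ e3⟩), fun i => ?_⟩
    rw [ha]
    dsimp only
    rw [hact]
    simp
  · funext u v
    cases u
    apply propext
    show B.r () (fun l => a (v l)) ↔ r₀ () v
    by_cases hv : Injective v
    · have hb : Bijective v := Finite.injective_iff_bijective.1 hv
      have e1 := hperm (Equiv.ofBijective v hb)
      have e2 := hperm0 (Equiv.ofBijective v hb)
      have e3 : (fun i => (Equiv.ofBijective v hb) i) = v := rfl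
      rw [e3] at e2
      rw [e2, ← e1]
      rfl
    · constructor
      · intro h
        exact absurd (fun x y hxy => h1 _ h (congrArg a hxy)) hv
      · intro h
        exact absurd (k1 _ h) hv

end Q175.SK
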