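import Pool.Agent.Q32.SK.Stm2

set_option autoImplicit false

/-! Project SK (helper32), job ETF: triangle-free graphs have equivariant extensions. -/

namespace Q175.SK

open Function Q32.SK

section zs

variable {G M J : Type} [Group G] [MulAction G M] {S : Subgroup G} {C : Set M}

theorem Zs_old {x : M} : (Ex.old J x : Ex G M J) ∈ Zs S C J ↔ x ∈ C := by
  constructor
  · rintro (⟨c, hc, h⟩ | ⟨s, _, j, h⟩)
    · rw [Ex.old_inj h]
      exact hc
    · exact (Ex.old_ne_new h).elim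
  · intro h
    exact Or.inl ⟨x, h, rfl⟩

theorem Zs_new {g : G} {j : J} : (Ex.new M g j : Ex G M J) ∈ Zs S C J ↔ g ∈ S := by
  constructor
  · rintro (⟨c, _, h⟩ | ⟨s, hs, j', h⟩)
    · exact (Ex.old_ne_new h.symm).elim
    · rw [(Ex.new_inj h).1]
      exact hs
  · intro h
    exact Or.inr ⟨g, h, j, rfl⟩

theorem Zs_smul (hSC : ∀ s ∈ S, ∀ c ∈ C, s • c ∈ C) {s : G} (hs : s ∈ S) {w : Ex G M J}
    (hw : w ∈ Zs S C J) : s • w ∈ Zs S C J := by
  rcases Ex.cases w with ⟨x, rfl⟩ | ⟨g, j, rfl⟩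
  · rw [Ex.smul_old, Zs_old]
    exact hSC s hs x (Zs_old.1 hw)
  · rw [Ex.smul_new, Zs_new]
    exact S.mul_mem hs (Zs_new.1 hw)

end zs

theorem vec2 {X : Type} (v : Fin 2 → X) : v = ![v 0, v 1] := by
  funext l
  fin_cases l <;> rfl

theorem vec2_map {X Y : Type} (f : X → Y) (x y : X) :
    (fun l => f ((![x, y] : Fin 2 → X) l)) = ![f x, f y] := by
  funext l
  fin_cases l <;> rfl

theorem etf : S_ETF := by
  intro k G M _ _ _ _ _ r hr J _ S C D hD
  have hSC := hD.inv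
  -- the binary relations
  set Ed : Ex G M J → Ex G M J → Prop := fun x y => D () ![x, y] with hEd
  set Er : M → M → Prop := fun x y => r () ![x, y] with hEr
  have rinv : ∀ (g : G) (x y : M), Er (g • x) (g • y) ↔ Er x y := by
    intro g x y
    have h1 := congrFun (congrFun (hr.inv g) ()) ![x, y]
    have h2 : r () (fun l => g • (![x, y] : Fin 2 → M) l) ↔ r () ![x, y] := Eq.to_iff h1
    rw [vec2_map] at h2
    exact h2
  have Dinv : ∀ (s : G), s ∈ S → ∀ x y, x ∈ Zs S C J → y ∈ Zs S C J → (Ed (s • x) (s • y) ↔ Ed x y) := by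
    intro s hs x y hx hy
    have h2 := hD.Dinv s hs () ![x, y] (fun l => by fin_cases l <;> assumption)
    rw [vec2_map] at h2
    exact h2
  have Dr : ∀ x y, x ∈ C → y ∈ C → (Ed (Ex.old J x) (Ex.old J y) ↔ Er x y) := by
    intro x y hx hy
    have h2 := hD.Dr () ![x, y] (fun l => by fin_cases l <;> assumption)
    rw [vec2_map] at h2
    exact h2
  obtain ⟨d1, d2, d3⟩ := hD.cls
  have Dirr : ∀ x ∈ Zs S C J, ¬ Ed x x := by
    intro x hx h
    refine d1 ⟨x, hx⟩ ?_
    show D () (fun l => _)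
    rw [vec2_map]
    exact h
  have Dsym : ∀ x ∈ Zs S C J, ∀ y ∈ Zs S C J, Ed x y → Ed y x := by
    intro x hx y hy h
    have := d2 ⟨x, hx⟩ ⟨y, hy⟩ (by
      show D () (fun l => _)
      rw [vec2_map]
      exact h)
    have h' : D () (fun l => ((![(⟨y, hy⟩ : Zs S C J), ⟨x, hx⟩] : Fin 2 → Zs S C J) l : Ex G M J)) := this
    rw [vec2_map] at h'
    exact h'
  have Dtri : ∀ x ∈ Zs S C J, ∀ y ∈ Zs S C J, ∀ z ∈ Zs S C J, ¬ (Ed x y ∧ Ed y z ∧ Ed x z) := by
    intro x hx y hy z hz h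
    refine d3 ⟨x, hx⟩ ⟨y, hy⟩ ⟨z, hz⟩ ⟨?_, ?_, ?_⟩
    · show D () (fun l => _)
      rw [vec2_map]
      exact h.1
    · show D () (fun l => _)
      rw [vec2_map]
      exact h.2.1
    · show D () (fun l => _)
      rw [vec2_map]
      exact h.2.2
  -- the new relation
  set E : Ex G M J → Ex G M J → Prop := fun x y =>
    (∃ a b, x = Ex.old J a ∧ y = Ex.old J b ∧ Er a b) ∨
    ∃ g : G, g • x ∈ Zs S C J ∧ g • y ∈ Zs S C J ∧ Ed (g • x) (g • y) with hE
  have Er_symm : ∀ x y, Er x y → Er y x := hr.cls.2.1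
  have Esym : ∀ x y, E x y → E y x := by
    rintro x y (⟨a, b, ha, hb, h⟩ | ⟨g, hx, hy, h⟩)
    · exact Or.inl ⟨b, a, hb, ha, Er_symm _ _ h⟩
    · exact Or.inr ⟨g, hy, hx, Dsym _ hx _ hy h⟩
  -- old points
  have Eold : ∀ a b, E (Ex.old J a) (Ex.old J b) ↔ Er a b := by
    intro a b
    constructor
    · rintro (⟨a', b', ha, hb, h⟩ | ⟨g, hx, hy, h⟩)
      · rw [Ex.old_inj ha, Ex.old_inj hb]
        exact h
      · rw [Ex.smul_old] at hx hy
        rw [Ex.smul_old, Ex.smul_old, Dr _ _ (Zs_old.1 hx) (Zs_old.1 hy), rinv] at h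
        exact h
    · intro h
      exact Or.inl ⟨a, b, rfl, rfl, h⟩
  -- an edge at a new point is seen in every position of the point
  have Lnew : ∀ (g h : G) (j : J) (z : Ex G M J), g • Ex.new M h j ∈ Zs S C J →
      E (Ex.new M h j) z → g • z ∈ Zs S C J ∧ Ed (g • Ex.new M h j) (g • z) := by
    rintro g h j z hg (⟨a, b, ha, _, _⟩ | ⟨g', hx, hz, he⟩)
    · exact (Ex.old_ne_new ha.symm).elim
    · have hs : g * g'⁻¹ ∈ S := by
        rw [Ex.smul_new, Zs_new] at hg hx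
        have := S.mul_mem hg (S.inv_mem hx)
        rwa [mul_inv_rev, ← mul_assoc, mul_assoc g h, mul_inv_cancel, mul_one] at this
      have e1 : ∀ w : Ex G M J, (g * g'⁻¹) • (g' • w) = g • w := by
        intro w
        rw [smul_smul, inv_mul_cancel_right]
      constructor
      · rw [← e1]
        exact Zs_smul hSC hs hz
      · rw [← e1 (Ex.new M h j), ← e1 z, Dinv _ hs _ _ hx hz]
        exact he
  have Lall : ∀ (g : G) (y z : Ex G M J), g • y ∈ Zs S C J → g • z ∈ Zs S C J → E y z →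
      Ed (g • y) (g • z) := by
    intro g y z hy hz h
    rcases Ex.cases y with ⟨a, rfl⟩ | ⟨h1, j1, rfl⟩
    · rcases Ex.cases z with ⟨b, rfl⟩ | ⟨h2, j2, rfl⟩
      · rw [Eold] at h
        rw [Ex.smul_old] at hy hz
        rw [Ex.smul_old, Ex.smul_old, Dr _ _ (Zs_old.1 hy) (Zs_old.1 hz), rinv]
        exact h
      · exact Dsym _ hz _ hy (Lnew g h2 j2 _ hz (Esym _ _ h)).2
    · exact (Lnew g h1 j1 _ hy h).2
  -- no triangle with a new point
  have Ltri : ∀ (h : G) (j : J) (y z : Ex G M J), E (Ex.new M h j) y → E y z →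
      E (Ex.new M h j) z → False := by
    intro h j y z h1 h2 h3
    have hg : h⁻¹ • Ex.new M h j ∈ Zs S C J := by
      rw [Ex.smul_new, inv_mul_cancel, Zs_new]
      exact S.one_mem
    obtain ⟨ky, e1⟩ := Lnew _ h j y hg h1
    obtain ⟨kz, e3⟩ := Lnew _ h j z hg h3
    exact Dtri _ hg _ ky _ kz ⟨e1, Lall _ _ _ ky kz h2, e3⟩
  refine ⟨fun _ v => E (v 0) (v 1), ⟨?_, ?_, ?_⟩, ?_, ?_, ?_⟩
  · intro x h
    have h' : E x x := h
    rcases Ex.cases x with ⟨a, rfl⟩ | ⟨g, j, rfl⟩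
    · rw [Eold] at h'
      exact hr.cls.1 a h'
    · have hg : g⁻¹ • Ex.new M g j ∈ Zs S C J := by
        rw [Ex.smul_new, inv_mul_cancel, Zs_new]
        exact S.one_mem
      exact Dirr _ hg (Lnew _ g j _ hg h').2
  · intro x y h
    exact Esym x y h
  · rintro x y z ⟨h1, h2, h3⟩
    have h1' : E x y := h1
    have h2' : E y z := h2
    have h3' : E x z := h3
    rcases Ex.cases x with ⟨a, rfl⟩ | ⟨g, j, rfl⟩
    · rcases Ex.cases y with ⟨b, rfl⟩ | ⟨g, j, rfl⟩
      · rcases Ex.cases z with ⟨c, rfl⟩ | ⟨g, j, rfl⟩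
        · rw [Eold] at h1' h2' h3'
          exact hr.cls.2.2 a b c ⟨h1', h2', h3'⟩
        · exact Ltri g j _ _ (Esym _ _ h3') h1' (Esym _ _ h2')
      · exact Ltri g j _ _ (Esym _ _ h1') h3' h2'
    · exact Ltri g j _ _ h1' h2' h3'
  · intro g
    funext u v
    apply propext
    show E (g • v 0) (g • v 1) ↔ E (v 0) (v 1)
    have key : ∀ (g : G) (x y : Ex G M J), E x y → E (g • x) (g • y) := by
      rintro g x y (⟨a, b, ha, hb, h⟩ | ⟨g', hx, hy, h⟩)
      · subst ha hb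
        refine Or.inl ⟨g • a, g • b, rfl, rfl, (rinv g a b).2 h⟩
      · refine Or.inr ⟨g' * g⁻¹, ?_, ?_, ?_⟩
        · rwa [smul_smul, inv_mul_cancel_right]
        · rwa [smul_smul, inv_mul_cancel_right]
        · rwa [smul_smul, smul_smul, inv_mul_cancel_right]
    constructor
    · intro h
      have := key g⁻¹ _ _ h
      rwa [inv_smul_smul, inv_smul_smul] at this
    · exact key g _ _
  · funext u v
    apply propext
    show E (Ex.old J (v 0)) (Ex.old J (v 1)) ↔ r u v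
    rw [Eold]
    show r () ![v 0, v 1] ↔ r u v
    rw [← vec2]
  · intro i v hv
    show E (v 0) (v 1) ↔ D i v
    have hDv : D i v ↔ Ed (v 0) (v 1) := by
      show D () v ↔ D () ![v 0, v 1]
      rw [← vec2]
    rw [hDv]
    constructor
    · intro h
      have := Lall 1 (v 0) (v 1) (by rw [one_smul]; exact hv 0) (by rw [one_smul]; exact hv 1) h
      rwa [one_smul, one_smul] at this
    · intro h
      refine Or.inr ⟨1, ?_, ?_, ?_⟩
      · rw [one_smul]
        exact hv 0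
      · rw [one_smul]
        exact hv 1
      · rwa [one_smul, one_smul]

end Q175.SK
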