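import Pool.Agent.Q32.SK.Stm2

set_option autoImplicit false

/-! Project SK (helper32), job FNC: back and forth for rational Urysohn spaces. -/

namespace Q175.SK

open Function Q32.SK

/-- the one point extension property -/
def OPE {M : Type} (d : M → M → ℚ) : Prop :=
  ∀ (A : Finset M) (f : M → ℚ), (∀ a ∈ A, 0 < f a) → (∀ a ∈ A, ∀ b ∈ A, d a b ≤ f a + f b) →
    (∀ a ∈ A, ∀ b ∈ A, f a ≤ d a b + f b) → ∃ y, ∀ a ∈ A, d a y = f a

theorem eq_of_zero {M : Type} {d : M → M → ℚ} (hd : IsMet d) {x y : M} (h : d x y = 0) : x = y := by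
  by_contra hne
  exact absurd h (hd.pos x y hne).ne'

/-- finite partial isometries -/
def PIso {M N : Type} (d : M → M → ℚ) (e : N → N → ℚ) (p : Finset (M × N)) : Prop :=
  ∀ q ∈ p, ∀ q' ∈ p, d q.1 q'.1 = e q.2 q'.2

theorem piso_swap {M N : Type} [DecidableEq M] [DecidableEq N] {d : M → M → ℚ} {e : N → N → ℚ}
    {p : Finset (M × N)} (h : PIso d e p) : PIso e d (p.image Prod.swap) := by
  intro q hq q' hq'
  rw [Finset.mem_image] at hq hq'
  obtain ⟨a, ha, rfl⟩ := hq
  obtain ⟨b, hb, rfl⟩ := hq'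
  exact (h a ha b hb).symm

theorem forth {M N : Type} [DecidableEq M] [DecidableEq N] {d : M → M → ℚ} {e : N → N → ℚ}
    (hd : IsMet d) (he : IsMet e) (hN : OPE e) (p : Finset (M × N)) (hp : PIso d e p) (m : M) :
    ∃ n, PIso d e (insert (m, n) p) := by
  by_cases hm : ∃ n, (m, n) ∈ p
  · obtain ⟨n, hn⟩ := hm
    exact ⟨n, by rwa [Finset.insert_eq_of_mem hn]⟩
  · push Not at hm
    -- the function on the second coordinates
    have hfn : ∀ n ∈ p.image Prod.snd, ∃ m', (m', n) ∈ p := by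
      intro n hn
      rw [Finset.mem_image] at hn
      obtain ⟨q, hq, rfl⟩ := hn
      exact ⟨q.1, hq⟩
    have : Nonempty M := ⟨m⟩
    choose! g hg using hfn
    obtain ⟨y, hy⟩ := hN (p.image Prod.snd) (fun n => d (g n) m) (fun a ha => by
        refine hd.pos _ _ (fun h => ?_)
        have := hg a ha
        rw [h] at this
        exact hm a this) (fun a ha b hb => by
        have h1 := hp _ (hg a ha) _ (hg b hb)
        dsimp only at h1
        rw [← h1]
        have h2 := hd.tri (g a) m (g b)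
        rw [hd.symm m] at h2
        exact h2) (fun a ha b hb => by
        have h1 := hp _ (hg a ha) _ (hg b hb)
        dsimp only at h1
        rw [← h1]
        exact hd.tri (g a) (g b) m)
    have key : ∀ q ∈ p, d q.1 m = e q.2 y := by
      intro q hq
      have hq2 : q.2 ∈ p.image Prod.snd := Finset.mem_image_of_mem _ hq
      rw [hy _ hq2]
      have h1 := hp q hq _ (hg _ hq2)
      dsimp only at h1
      rw [he.self] at h1
      rw [eq_of_zero hd h1]
    refine ⟨y, fun q hq q' hq' => ?_⟩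
    rw [Finset.mem_insert] at hq hq'
    rcases hq with rfl | hq <;> rcases hq' with rfl | hq'
    · rw [hd.self, he.self]
    · dsimp only
      rw [hd.symm, he.symm]
      exact key q' hq'
    · exact key q hq
    · exact hp q hq q' hq'

theorem back {M N : Type} [DecidableEq M] [DecidableEq N] {d : M → M → ℚ} {e : N → N → ℚ}
    (hd : IsMet d) (he : IsMet e) (hM : OPE d) (p : Finset (M × N)) (hp : PIso d e p) (n : N) :
    ∃ m, PIso d e (insert (m, n) p) := by
  obtain ⟨m, hm⟩ := forth he hd hM (p.image Prod.swap) (piso_swap hp) n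
  refine ⟨m, ?_⟩
  have h := piso_swap hm
  have e1 : (insert (n, m) (p.image Prod.swap)).image Prod.swap = insert (m, n) p := by
    rw [Finset.image_insert, Finset.image_image]
    simp
  rwa [e1] at h

/-- back and forth -/
theorem exists_isom {M N : Type} [Countable M] [Countable N] {d : M → M → ℚ} {e : N → N → ℚ}
    (hd : IsMet d) (he : IsMet e) (hM : OPE d) (hN : OPE e) (p₀ : Finset (M × N))
    (hp₀ : PIso d e p₀) : ∃ σ : M ≃ N, (∀ x y, e (σ x) (σ y) = d x y) ∧ ∀ q ∈ p₀, σ q.1 = q.2 := by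
  classical
  let P : Type := {p : Finset (M × N) // PIso d e p}
  let 𝒟 : M ⊕ N → Order.Cofinal P := fun x =>
    match x with
    | Sum.inl m => ⟨{p | ∃ n, (m, n) ∈ p.1}, fun p => by
        obtain ⟨n, hn⟩ := forth hd he hN p.1 p.2 m
        exact ⟨⟨_, hn⟩, ⟨n, Finset.mem_insert_self _ _⟩, Finset.subset_insert _ _⟩⟩
    | Sum.inr n => ⟨{p | ∃ m, (m, n) ∈ p.1}, fun p => by
        obtain ⟨m, hm⟩ := back hd he hM p.1 p.2 n
        exact ⟨⟨_, hm⟩, ⟨m, Finset.mem_insert_self _ _⟩, Finset.subset_insert _ _⟩⟩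
  let _ : Encodable (M ⊕ N) := Encodable.ofCountable _
  let Id : Order.Ideal P := Order.idealOfCofinals ⟨p₀, hp₀⟩ 𝒟
  set R : M → N → Prop := fun m n => ∃ p ∈ Id, (m, n) ∈ p.1 with hR
  have hiso : ∀ m n m' n', R m n → R m' n' → d m m' = e n n' := by
    rintro m n m' n' ⟨p, hp, h1⟩ ⟨p', hp', h2⟩
    obtain ⟨q, _, hq1, hq2⟩ := Id.directed p hp p' hp'
    exact q.2 _ (hq1 h1) _ (hq2 h2)
  have h1 : ∀ m, ∃ n, R m n := by
    intro m
    obtain ⟨p, ⟨n, hn⟩, hp⟩ := Order.cofinal_meets_idealOfCofinals ⟨p₀, hp₀⟩ 𝒟 (Sum.inl m)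
    exact ⟨n, p, hp, hn⟩
  have h2 : ∀ n, ∃ m, R m n := by
    intro n
    obtain ⟨p, ⟨m, hm⟩, hp⟩ := Order.cofinal_meets_idealOfCofinals ⟨p₀, hp₀⟩ 𝒟 (Sum.inr n)
    exact ⟨m, p, hp, hm⟩
  choose F hF using h1
  choose G hG using h2
  have u1 : ∀ m n n', R m n → R m n' → n = n' := by
    intro m n n' a b
    refine eq_of_zero he ?_
    rw [← hiso m n m n' a b, hd.self]
  have u2 : ∀ m m' n, R m n → R m' n → m = m' := by
    intro m m' n a b
    refine eq_of_zero hd ?_
    rw [hiso m n m' n a b, he.self]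
  refine ⟨⟨F, G, fun m => u2 _ _ _ (hG (F m)) (hF m), fun n => u1 _ _ _ (hF (G n)) (hG n)⟩,
    fun x y => (hiso _ _ _ _ (hF x) (hF y)).symm, fun q hq => ?_⟩
  refine u1 _ _ _ (hF q.1) ⟨⟨p₀, hp₀⟩, Order.mem_idealOfCofinals _ _, hq⟩

/-- the metric on one more point -/
theorem optMet {M : Type} {d : M → M → ℚ} (hd : IsMet d) (A : Finset M) (f : M → ℚ)
    (h0 : ∀ a ∈ A, 0 < f a) (h1 : ∀ a ∈ A, ∀ b ∈ A, d a b ≤ f a + f b)
    (h2 : ∀ a ∈ A, ∀ b ∈ A, f a ≤ d a b + f b) :
    ∃ δ : Option (A : Set M) → Option (A : Set M) → ℚ, IsMet δ ∧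
      (∀ a b : (A : Set M), δ (some a) (some b) = d a b) ∧ ∀ a : (A : Set M), δ (some a) none = f a := by
  refine ⟨fun x y => match x, y with
    | some a, some b => d a b
    | some a, none => f a
    | none, some b => f b
    | none, none => 0, ⟨?_, ?_, ?_, ?_⟩, fun _ _ => rfl, fun _ => rfl⟩
  · rintro (_ | a)
    · rfl
    · exact hd.self _
  · rintro (_ | a) (_ | b) h
    · exact absurd rfl h
    · exact h0 b b.2
    · exact h0 a a.2
    · exact hd.pos _ _ (fun h' => h (congrArg some (Subtype.ext h')))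
  · rintro (_ | a) (_ | b)
    · rfl
    · rfl
    · rfl
    · exact hd.symm _ _
  · rintro (_ | a) (_ | b) (_ | c)
    · show (0 : ℚ) ≤ 0 + 0
      norm_num
    · show f c ≤ 0 + f c
      rw [zero_add]
    · show (0 : ℚ) ≤ f b + f b
      have := h0 b b.2
      linarith
    · show f c ≤ f b + d b c
      have := h2 c c.2 b b.2
      rw [hd.symm c b] at this
      linarith
    · show f a ≤ f a + 0
      rw [add_zero]
    · show d a c ≤ f a + f c
      exact h1 a a.2 c c.2
    · show f a ≤ d a b + f b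
      exact h2 a a.2 b b.2
    · exact hd.tri _ _ _

theorem ope_of_qu {M : Type} {d : M → M → ℚ} (h : IsQU M d) : OPE d := by
  classical
  intro A f h0 h1 h2
  obtain ⟨δ, hδ, e1, e2⟩ := optMet h.met A f h0 h1 h2
  have : Finite (Option (A : Set M)) := inferInstance
  obtain ⟨n, ⟨E⟩⟩ := Finite.exists_equiv_fin (Option (A : Set M))
  obtain ⟨φ, hφ⟩ := h.univ n (fun x y => δ (E.symm x) (E.symm y)) ⟨fun x => hδ.self _,
    fun x y hxy => hδ.pos _ _ (fun h' => hxy (E.symm.injective h')), fun x y => hδ.symm _ _,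
    fun x y z => hδ.tri _ _ _⟩
  have hφ' : ∀ x y : Option (A : Set M), d (φ (E x)) (φ (E y)) = δ x y := by
    intro x y
    rw [hφ, E.symm_apply_apply, E.symm_apply_apply]
  -- the copy of `A`
  set B : Set M := Set.range (fun a : (A : Set M) => φ (E (some a))) with hB
  have hBf : B.Finite := Set.finite_range _
  choose g hg using fun b : B => b.2
  have hg' : ∀ b : B, φ (E (some (g b))) = b := hg
  obtain ⟨σ, hσ1, hσ2⟩ := h.homog B hBf (fun b => (g b : M)) (fun x y => by
    rw [← e1, ← hφ', hg', hg'])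
  refine ⟨σ (φ (E none)), fun a ha => ?_⟩
  have h3 : φ (E (some ⟨a, ha⟩)) ∈ B := ⟨⟨a, ha⟩, rfl⟩
  have h4 : (g ⟨_, h3⟩ : M) = a := by
    have h5 := hg' ⟨_, h3⟩
    have h6 : d (φ (E (some (g ⟨_, h3⟩)))) (φ (E (some ⟨a, ha⟩))) = 0 := by
      rw [h5]
      exact h.met.self _
    rw [hφ', e1] at h6
    exact eq_of_zero h.met h6
  have h7 := hσ2 ⟨_, h3⟩
  rw [h4] at h7
  dsimp only at h7
  calc d a (σ (φ (E none))) = d (σ (φ (E (some ⟨a, ha⟩)))) (σ (φ (E none))) := by rw [h7]
    _ = d (φ (E (some ⟨a, ha⟩))) (φ (E none)) := hσ1 _ _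
    _ = δ (some ⟨a, ha⟩) none := hφ' _ _
    _ = f a := e2 _

theorem ope_of_ptExt {k : ℕ} (W : Stg k RM) (hW : PtExt W) {d : W.M → W.M → ℚ} (hd : IsMet d)
    (hr : W.r = mstr d) : OPE d := by
  intro A f h0 h1 h2
  obtain ⟨δ, hδ, e1, e2⟩ := optMet hd A f h0 h1 h2
  obtain ⟨y, _, hy⟩ := hW (A : Set W.M) A.finite_toSet (mstr δ) ⟨δ, hδ, rfl⟩ (by
    rw [hr]
    funext q v
    show (δ (some (v 0)) (some (v 1)) = q) = (d (v 0) (v 1) = q)
    rw [e1])
  refine ⟨y, fun a ha => ?_⟩
  rw [hr] at hy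
  have h3 := congrFun (congrFun hy (f a)) ![some ⟨a, ha⟩, none]
  have h4 : (d a y = f a) = (δ (some ⟨a, ha⟩) none = f a) := h3
  rw [h4]
  exact e2 _

theorem qu_of_ope {M : Type} [Countable M] {d : M → M → ℚ} (hd : IsMet d) (hO : OPE d) :
    IsQU M d := by
  classical
  refine ⟨inferInstance, hd, ?_, ?_⟩
  · intro n d₀ hd₀
    have : ∀ s : Finset (Fin n), ∃ p : Finset (Fin n × M), PIso d₀ d p ∧ ∀ x ∈ s, ∃ m, (x, m) ∈ p := by
      intro s
      induction s using Finset.induction_on with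
      | empty => exact ⟨∅, fun q hq => absurd hq (Finset.notMem_empty q), fun x hx =>
          absurd hx (Finset.notMem_empty x)⟩
      | insert a s _ ih =>
        obtain ⟨p, hp, h1⟩ := ih
        obtain ⟨m, hm⟩ := forth hd₀ hd hO p hp a
        refine ⟨_, hm, fun x hx => ?_⟩
        rw [Finset.mem_insert] at hx
        rcases hx with rfl | hx
        · exact ⟨m, Finset.mem_insert_self _ _⟩
        · obtain ⟨m', hm'⟩ := h1 x hx
          exact ⟨m', Finset.mem_insert_of_mem hm'⟩
    obtain ⟨p, hp, h1⟩ := this Finset.univ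
    choose g hg using fun x => h1 x (Finset.mem_univ x)
    exact ⟨g, fun x y => (hp _ (hg x) _ (hg y)).symm⟩
  · intro A hA f hf
    have := hA.fintype
    set p₀ : Finset (M × M) := Finset.univ.image (fun a : A => ((a : M), f a)) with hp₀
    have hP : PIso d d p₀ := by
      intro q hq q' hq'
      rw [hp₀, Finset.mem_image] at hq hq'
      obtain ⟨a, _, rfl⟩ := hq
      obtain ⟨b, _, rfl⟩ := hq'
      exact (hf a b).symm
    obtain ⟨σ, h1, h2⟩ := exists_isom hd hd hO hO p₀ hP
    exact ⟨σ, h1, fun x => h2 ((x : M), f x) (Finset.mem_image_of_mem _ (Finset.mem_univ x))⟩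

theorem fnc : S_FNC := by
  intro hW
  have key : ∀ k, k = 2 ∨ k = 3 → ∃ (W : Stg k RM) (d : W.M → W.M → ℚ), Trans W ∧ IsMet d ∧
      W.r = mstr d ∧ OPE d := by
    intro k hk
    obtain ⟨W, hT, hP⟩ := hW k hk
    obtain ⟨d, hd, hr⟩ := W.good.cls
    exact ⟨W, d, hT, hd, hr, ope_of_ptExt W hP hd hr⟩
  refine ⟨?_, ?_⟩
  · obtain ⟨W, d, _, hd, _, hO⟩ := key 2 (Or.inl rfl)
    exact ⟨W.M, d, qu_of_ope hd hO⟩
  · intro k hk M e hM
    obtain ⟨W, d, hT, hd, hr, hO⟩ := key k hk
    have := hM.cnt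
    obtain ⟨σ, hσ, -⟩ := exists_isom hd hM.met hO (ope_of_qu hM) ∅
      (fun q hq => absurd hq (Finset.notMem_empty q))
    have hinv : ∀ (g : W.G) x y, d (g • x) (g • y) = d x y := by
      intro g x y
      have h1 := W.good.inv g
      rw [hr] at h1
      have h2 := congrFun (congrFun h1 (d x y)) ![x, y]
      have h3 : (d (g • x) (g • y) = d x y) = (d x y = d x y) := h2
      rw [h3]
    let act : MulAction W.G M :=
      { smul := fun g m => σ (g • σ.symm m)
        one_smul := fun m => by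
          show σ ((1 : W.G) • σ.symm m) = m
          rw [one_smul, σ.apply_symm_apply]
        mul_smul := fun g h m => by
          show σ ((g * h) • σ.symm m) = σ (g • σ.symm (σ (h • σ.symm m)))
          rw [σ.symm_apply_apply, mul_smul] }
    have hact : ∀ (g : W.G) (m : M), act.smul g m = σ (g • σ.symm m) := fun _ _ => rfl
    refine ⟨W.G, inferInstance, act, ?_, ?_⟩
    · intro g x y
      show e (σ (g • σ.symm x)) (σ (g • σ.symm y)) = e x y
      rw [hσ, hinv, ← hσ, σ.apply_symm_apply, σ.apply_symm_apply]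
    · intro a b ha hb hab
      have ha' : Injective (fun i => σ.symm (a i)) := fun i j h => ha (σ.symm.injective h)
      have hb' : Injective (fun i => σ.symm (b i)) := fun i j h => hb (σ.symm.injective h)
      obtain ⟨g, hg⟩ := hT _ _ ha' hb' (by
        rw [hr]
        funext q v
        show (d (σ.symm (a (v 0))) (σ.symm (a (v 1))) = q) =
          (d (σ.symm (b (v 0))) (σ.symm (b (v 1))) = q)
        rw [← hσ, ← hσ (σ.symm (b (v 0)))]
        simp only [σ.apply_symm_apply]
        rw [hab])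
      refine ⟨g, fun i => ?_, fun g' hg' => ?_⟩
      · show σ (g • σ.symm (a i)) = b i
        rw [hg, σ.apply_symm_apply]
      · have hg'' : ∀ i, g' • σ.symm (a i) = σ.symm (b i) := by
          intro i
          have h1 : σ (g' • σ.symm (a i)) = b i := hg' i
          rw [← h1, σ.symm_apply_apply]
        have h2 : g⁻¹ * g' = 1 := by
          refine W.good.shp _ (fun i => σ.symm (a i)) ha' (fun i => ?_)
          rw [mul_smul, hg'', ← hg, inv_smul_smul]
        exact (inv_mul_eq_one.1 h2).symm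

end Q175.SK
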