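import Pool.Agent.Q32.SK.Stm2

set_option autoImplicit false

/-! Project SK (helper32), job HFR: full tuples by amalgamation (no nullary relations). -/

namespace Q175.SK

open Function Q32.SK

/-- `S_HFR` for languages without nullary relation symbols -/
def S_HFR2 : Prop := S_BOOK → S_LIM → S_EXG → S_RIC → S_SEB →
  S_UIN → S_UNO → S_MR → S_UEX → S_UGE → S_UGR → S_UST →
  ∀ (k : ℕ) (I : Type) (ar : I → ℕ) (_ : ∀ i, 0 < ar i) (𝒞 : Cls I ar), SEAP 𝒞 →
  (∀ H : Subgroup (Equiv.Perm (Fin k)), HC k H) → ∀ A₀ : Stg k 𝒞, HFull A₀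

theorem hfr : S_HFR2 := by
  intro book lim exg ric seb uin uno mr uex uge ugr ust k I ar har 𝒞 hS hH A₀ B _ r₀ hr₀
  have hE : EAP k 𝒞 := seb k I ar 𝒞 hS
  -- the structure on the new points
  set D : Str I ar (Ex B.G B.M (Fin k)) := fun i v =>
    ∃ w : Fin (ar i) → Fin k, (∀ l, v l = Ex.new B.M 1 (w l)) ∧ r₀ i w with hD
  have hDnew : ∀ (i : I) (w : Fin (ar i) → Fin k), D i (fun l => Ex.new B.M 1 (w l)) ↔ r₀ i w := by
    intro i w
    constructor
    · rintro ⟨w', h1, h2⟩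
      have : w = w' := funext fun l => (Ex.new_inj (h1 l)).2
      rwa [this]
    · intro h
      exact ⟨w, fun _ => rfl, h⟩
  have hZ : ∀ z : Ex B.G B.M (Fin k), z ∈ Zs (⊥ : Subgroup B.G) (∅ : Set B.M) (Fin k) →
      ∃ j : Fin k, z = Ex.new B.M 1 j := by
    rintro z (⟨c, hc, _⟩ | ⟨s, hs, j, h⟩)
    · exact absurd hc (Set.notMem_empty c)
    · rw [Subgroup.mem_bot] at hs
      subst hs
      exact ⟨j, h⟩
  have hZ' : ∀ j : Fin k, (Ex.new B.M 1 j : Ex B.G B.M (Fin k)) ∈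
      Zs (⊥ : Subgroup B.G) (∅ : Set B.M) (Fin k) := fun j =>
    Or.inr ⟨1, Subgroup.one_mem _, j, rfl⟩
  have hAdm : Adm 𝒞 B.r (⊥ : Subgroup B.G) (∅ : Set B.M) D := by
    refine ⟨inferInstance, Set.finite_empty, fun _ _ c hc => absurd hc (Set.notMem_empty c), ?_,
      ?_, ?_⟩
    · choose f hf using fun z : Zs (⊥ : Subgroup B.G) (∅ : Set B.M) (Fin k) => hZ z z.2
      have hfi : Injective f := by
        intro x y h
        exact Subtype.ext (by rw [hf x, hf y, h])
      have := 𝒞.pull _ _ f r₀ hfi hr₀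
      convert this using 1
      funext i v
      apply propext
      show D i (fun l => (v l : Ex B.G B.M (Fin k))) ↔ r₀ i (fun l => f (v l))
      rw [← hDnew]
      have : (fun l => (v l : Ex B.G B.M (Fin k))) = fun l => Ex.new B.M 1 (f (v l)) := by
        funext l
        exact hf (v l)
      rw [this]
    · intro s hs i v _
      rw [Subgroup.mem_bot] at hs
      subst hs
      simp only [one_smul]
    · intro i v hv
      exact absurd (hv ⟨0, har i⟩) (Set.notMem_empty _)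
  obtain ⟨r', hK, hinv, hold, hDr'⟩ := hE B.G B.M B.r B.good (Fin k) ⊥ ∅ D hAdm
  have hgood : Good k 𝒞 B.G (Ex B.G B.M (Fin k)) r' :=
    exg k I ar 𝒞 B.G B.M (Fin k) B.r r' B.good hK hinv hold
  have hcM : Countable (Ex B.G B.M (Fin k)) := by
    unfold Ex
    infer_instance
  have hiM : Infinite (Ex B.G B.M (Fin k)) := Infinite.of_injective (Ex.old (Fin k))
    (fun x y h => Ex.old_inj h)
  let B' : Stg k 𝒞 := @Stg.mk k I ar 𝒞 B.G (Ex B.G B.M (Fin k)) inferInstance inferInstance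
    inferInstance hcM hiM r' hgood
  let e₁ : Ext B B' :=
    { φ := MonoidHom.id B.G
      ι := Ex.old (Fin k)
      inj := fun x y h => Ex.old_inj h
      eqv := fun _ _ => rfl
      str := hold }
  obtain ⟨C, e₂, hsur, hrich⟩ := ric book lim exg k I ar 𝒞 hE B'
  set b : Fin k → C.M := fun j => e₂.ι (Ex.new B.M 1 j) with hb
  have hbi : Injective b := fun i j h => (Ex.new_inj (e₂.inj h)).2
  have htriv : ∀ g : C.G, (∀ i, g • b i ∈ Set.range b) → g = 1 := by
    intro g hg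
    rcases Nat.eq_zero_or_pos k with hk | hk
    · exact C.good.shp g b hbi (fun i => absurd i.2 (by omega))
    · obtain ⟨h, rfl⟩ := hsur g
      obtain ⟨j, hj⟩ := hg ⟨0, hk⟩
      have h1 := (e₂.eqv h (Ex.new B.M 1 ⟨0, hk⟩)).trans hj.symm
      have h2 := e₂.inj h1
      have h0 : B.G := h
      have h3 : (Ex.new B.M ((h : B.G) * 1) (⟨0, hk⟩ : Fin k) : Ex B.G B.M (Fin k)) =
        Ex.new B.M 1 j := h2
      have h4 : (h : B.G) * 1 = 1 := (Ex.new_inj h3).1
      rw [mul_one] at h4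
      have h5 : h = (1 : B'.G) := h4
      rw [h5, map_one]
  obtain ⟨C', e₃, hfull⟩ := ust uin uno mr uex uge ugr k I ar 𝒞 hS C hrich b hbi htriv hH
  refine ⟨C', (e₁.comp e₂).comp e₃, fun i => e₃.ι (b i), hfull, ?_⟩
  have h1 : C'.r.pull (fun i => e₃.ι (b i)) = (C'.r.pull e₃.ι).pull b := rfl
  rw [h1, e₃.str]
  have h2 : C.r.pull b = (C.r.pull e₂.ι).pull (fun j => (Ex.new B.M 1 j : Ex B.G B.M (Fin k))) := rfl
  rw [h2, e₂.str]
  funext i v
  apply propext
  show r' i (fun l => Ex.new B.M 1 (v l)) ↔ r₀ i v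
  rw [hDr' i _ (fun l => hZ' (v l)), hDnew]

end Q175.SK
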