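import Pool.Agent.Q32.SK.Stm2
import Pool.Agent.Q175.SK.Etf

set_option autoImplicit false

/-! Project SK (helper32), job SEA: equivariant extensions of rational metric spaces. -/

namespace Q175.SK

open Function Q32.SK

/-! ### Gluing of metrics -/

section glue

variable {M N : Type}

/-- the metric on the sum, from the metric of `M`, the distances `f x m` and those of the new
points -/
def gl (d : M → M → ℚ) (f : N → M → ℚ) (ρ : N → N → ℚ) : M ⊕ N → M ⊕ N → ℚ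
  | Sum.inl m, Sum.inl m' => d m m'
  | Sum.inl m, Sum.inr x => f x m
  | Sum.inr x, Sum.inl m => f x m
  | Sum.inr x, Sum.inr y => ρ x y

theorem gl_isMet (d : M → M → ℚ) (f : N → M → ℚ) (ρ : N → N → ℚ) (hd : IsMet d)
    (fpos : ∀ x m, 0 < f x m)
    (f1 : ∀ x m m', f x m ≤ f x m' + d m' m) (f2 : ∀ x m m', d m m' ≤ f x m + f x m')
    (ρself : ∀ x, ρ x x = 0) (ρpos : ∀ x y, x ≠ y → 0 < ρ x y) (ρsymm : ∀ x y, ρ x y = ρ y x)
    (g1 : ∀ x y m, f x m ≤ ρ x y + f y m) (g2 : ∀ x y m, ρ x y ≤ f x m + f y m)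
    (P : N → N → Prop) (hP : ∀ x y, ¬ P x y → ∃ m, ρ x y = f x m + f y m)
    (tri : ∀ x y z, P x y → P y z → ρ x z ≤ ρ x y + ρ y z) : IsMet (gl d f ρ) := by
  refine ⟨?_, ?_, ?_, ?_⟩
  · rintro (m | x)
    · exact hd.self m
    · exact ρself x
  · rintro (m | x) (m' | y) h
    · exact hd.pos m m' (fun h' => h (congrArg _ h'))
    · exact fpos y m
    · exact fpos x m'
    · exact ρpos x y (fun h' => h (congrArg _ h'))
  · rintro (m | x) (m' | y)
    · exact hd.symm m m'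
    · rfl
    · rfl
    · exact ρsymm x y
  · rintro (m | x) (m' | y) (m'' | z)
    · exact hd.tri m m' m''
    · show f z m ≤ d m m' + f z m'
      have := f1 z m m'
      rw [hd.symm m' m] at this
      linarith
    · show d m m'' ≤ f y m + f y m''
      exact f2 y m m''
    · show f z m ≤ f y m + ρ y z
      have := g1 z y m
      rw [ρsymm z y] at this
      linarith
    · show f x m'' ≤ f x m' + d m' m''
      exact f1 x m'' m'
    · show ρ x z ≤ f x m' + f z m'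
      exact g2 x z m'
    · show f x m'' ≤ ρ x y + f y m''
      exact g1 x y m''
    · show ρ x z ≤ ρ x y + ρ y z
      by_cases h1 : P x y
      · by_cases h2 : P y z
        · exact tri x y z h1 h2
        · obtain ⟨m, hm⟩ := hP y z h2
          have a1 := g1 x y m
          have a2 := g2 x z m
          linarith
      · obtain ⟨m, hm⟩ := hP x y h1
        have a1 := g1 z y m
        have a2 := g2 x z m
        rw [ρsymm z y] at a1
        linarith

end glue

/-! ### The minimum over a finite nonempty set -/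

section mn

variable {M : Type}

/-- the minimum of `F` on the finite nonempty set `C` -/
noncomputable def mn (C : Finset M) (F : M → ℚ) : ℚ := if h : C.Nonempty then C.inf' h F else 0

theorem mn_le {C : Finset M} (F : M → ℚ) {c : M} (hc : c ∈ C) : mn C F ≤ F c := by
  unfold mn
  rw [dif_pos ⟨c, hc⟩]
  exact Finset.inf'_le F hc

theorem mn_mem {C : Finset M} (h : C.Nonempty) (F : M → ℚ) : ∃ c ∈ C, mn C F = F c := by
  unfold mn
  rw [dif_pos h]
  obtain ⟨c, hc, h'⟩ := Finset.exists_mem_eq_inf' h F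
  exact ⟨c, hc, h'⟩

end mn

/-! ### The amalgam -/

section amalg

variable {G M J : Type} [Group G] [MulAction G M]

theorem amalg (d : M → M → ℚ) (hd : IsMet d) (hinv : ∀ (g : G) x y, d (g • x) (g • y) = d x y)
    (S : Subgroup G) (C : Finset M) (hne : C.Nonempty) (hSC : ∀ s ∈ S, ∀ c ∈ C, s • c ∈ C)
    (δ : Ex G M J → Ex G M J → ℚ)
    (δself : ∀ x ∈ Zs S (C : Set M) J, δ x x = 0)
    (δpos : ∀ x ∈ Zs S (C : Set M) J, ∀ y ∈ Zs S (C : Set M) J, x ≠ y → 0 < δ x y)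
    (δsymm : ∀ x ∈ Zs S (C : Set M) J, ∀ y ∈ Zs S (C : Set M) J, δ x y = δ y x)
    (δtri : ∀ x ∈ Zs S (C : Set M) J, ∀ y ∈ Zs S (C : Set M) J, ∀ z ∈ Zs S (C : Set M) J,
      δ x z ≤ δ x y + δ y z)
    (δinv : ∀ s ∈ S, ∀ x ∈ Zs S (C : Set M) J, ∀ y ∈ Zs S (C : Set M) J,
      δ (s • x) (s • y) = δ x y)
    (δold : ∀ c ∈ C, ∀ c' ∈ C, δ (Ex.old J c) (Ex.old J c') = d c c') :
    ∃ ρ : Ex G M J → Ex G M J → ℚ, IsMet ρ ∧ (∀ (g : G) x y, ρ (g • x) (g • y) = ρ x y) ∧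
      (∀ x y, ρ (Ex.old J x) (Ex.old J y) = d x y) ∧
      ∀ x ∈ Zs S (C : Set M) J, ∀ y ∈ Zs S (C : Set M) J, ρ x y = δ x y := by
  classical
  -- membership
  have zo : ∀ c ∈ C, (Ex.old J c : Ex G M J) ∈ Zs S (C : Set M) J := fun c hc => Zs_old.2 hc
  have zn : ∀ s ∈ S, ∀ j, (Ex.new M s j : Ex G M J) ∈ Zs S (C : Set M) J := fun s hs j => Zs_new.2 hs
  have z1 : ∀ j, (Ex.new M 1 j : Ex G M J) ∈ Zs S (C : Set M) J := fun j => zn 1 S.one_mem j
  have dnn : ∀ x y, 0 ≤ d x y := by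
    intro x y
    by_cases h : x = y
    · rw [h, hd.self]
    · exact (hd.pos x y h).le
  -- the distances between new and old points
  set f : G × J → M → ℚ := fun x m =>
    mn C (fun c => δ (Ex.new M 1 x.2) (Ex.old J c) + d (x.1 • c) m) with hf
  have fle : ∀ (x : G × J) (m : M) (c : M), c ∈ C →
      f x m ≤ δ (Ex.new M 1 x.2) (Ex.old J c) + d (x.1 • c) m := fun x m c hc => mn_le _ hc
  have fmem : ∀ (x : G × J) (m : M), ∃ c ∈ C,
      f x m = δ (Ex.new M 1 x.2) (Ex.old J c) + d (x.1 • c) m := fun x m => mn_mem hne _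
  have δn : ∀ (j : J) (c : M), c ∈ C → 0 < δ (Ex.new M 1 j) (Ex.old J c) := fun j c hc =>
    δpos _ (z1 j) _ (zo c hc) (fun h => Ex.old_ne_new h.symm)
  have fpos : ∀ x m, 0 < f x m := by
    intro x m
    obtain ⟨c, hc, h⟩ := fmem x m
    rw [h]
    have := δn x.2 c hc
    have := dnn (x.1 • c) m
    linarith
  have f1 : ∀ x m m', f x m ≤ f x m' + d m' m := by
    intro x m m'
    obtain ⟨c, hc, h⟩ := fmem x m'
    have h1 := fle x m c hc
    have h2 := hd.tri (x.1 • c) m' m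
    linarith
  have f2 : ∀ x m m', d m m' ≤ f x m + f x m' := by
    intro x m m'
    obtain ⟨c, hc, h⟩ := fmem x m
    obtain ⟨c', hc', h'⟩ := fmem x m'
    have h1 := hd.tri m (x.1 • c) m'
    have h2 := hd.tri (x.1 • c) (x.1 • c') m'
    have h3 := δtri _ (zo c hc) _ (z1 x.2) _ (zo c' hc')
    rw [δold c hc c' hc', δsymm _ (zo c hc) _ (z1 x.2)] at h3
    rw [hinv] at h2
    rw [hd.symm m (x.1 • c)] at h1
    linarith
  have finv : ∀ (g : G) (x : G × J) m, f (g * x.1, x.2) (g • m) = f x m := by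
    intro g x m
    rw [hf]
    dsimp only
    congr 1
    funext c
    rw [mul_smul, hinv]
  -- the distances of a translate
  have ftr : ∀ (g s : G) (i : J) (m : M), s ∈ S → ∀ c ∈ C,
      f (g * s, i) m ≤ δ (Ex.new M s i) (Ex.old J c) + d (g • c) m := by
    intro g s i m hs c hc
    have hc' : s⁻¹ • c ∈ C := hSC _ (S.inv_mem hs) c hc
    have h1 := fle (g * s, i) m (s⁻¹ • c) hc'
    have h2 := δinv s hs _ (z1 i) _ (zo _ hc')
    rw [Ex.smul_new, Ex.smul_old, mul_one, smul_inv_smul] at h2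
    dsimp only at h1
    rw [mul_smul, smul_inv_smul, ← h2] at h1
    exact h1
  have ftr' : ∀ (g s : G) (i : J) (m : M), s ∈ S → ∃ c ∈ C,
      f (g * s, i) m = δ (Ex.new M s i) (Ex.old J c) + d (g • c) m := by
    intro g s i m hs
    obtain ⟨c, hc, h⟩ := fmem (g * s, i) m
    refine ⟨s • c, hSC s hs c hc, ?_⟩
    have h2 := δinv s hs _ (z1 i) _ (zo _ hc)
    rw [Ex.smul_new, Ex.smul_old, mul_one] at h2
    rw [h, h2, mul_smul]
  -- the infimum for points of different pieces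
  set u : G × J → G × J → ℚ := fun x y => mn C (fun c => f x (x.1 • c) + f y (x.1 • c)) with hu
  have ule : ∀ x y m, u x y ≤ f x m + f y m := by
    intro x y m
    obtain ⟨c, hc, h⟩ := fmem x m
    have h1 : u x y ≤ f x (x.1 • c) + f y (x.1 • c) := mn_le _ hc
    have h2 := fle x (x.1 • c) c hc
    rw [hd.self] at h2
    have h3 := f1 y (x.1 • c) m
    rw [hd.symm m] at h3
    linarith
  have umem : ∀ x y, ∃ m, u x y = f x m + f y m := by
    intro x y
    obtain ⟨c, _, h⟩ := mn_mem hne (fun c => f x (x.1 • c) + f y (x.1 • c))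
    exact ⟨_, h⟩
  have usymm : ∀ x y, u x y = u y x := by
    intro x y
    apply le_antisymm
    · obtain ⟨m, h⟩ := umem y x
      rw [h, add_comm]
      exact ule x y m
    · obtain ⟨m, h⟩ := umem x y
      rw [h, add_comm]
      exact ule y x m
  -- the distances of new points
  set ρ : G × J → G × J → ℚ := fun x y =>
    if x.1⁻¹ * y.1 ∈ S then δ (Ex.new M 1 x.2) (Ex.new M (x.1⁻¹ * y.1) y.2) else u x y with hρ
  have ρS : ∀ (g s : G) (j i : J), s ∈ S → ρ (g, j) (g * s, i) = δ (Ex.new M 1 j) (Ex.new M s i) := by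
    intro g s j i hs
    rw [hρ]
    dsimp only
    rw [inv_mul_cancel_left, if_pos hs]
  have ρS2 : ∀ (g s s' : G) (j i : J), s ∈ S → s' ∈ S →
      ρ (g * s, j) (g * s', i) = δ (Ex.new M s j) (Ex.new M s' i) := by
    intro g s s' j i hs hs'
    have h1 := ρS (g * s) (s⁻¹ * s') j i (S.mul_mem (S.inv_mem hs) hs')
    rw [mul_assoc, mul_inv_cancel_left] at h1
    rw [h1]
    have h2 := δinv s hs _ (z1 j) _ (zn _ (S.mul_mem (S.inv_mem hs) hs') i)
    rw [Ex.smul_new, Ex.smul_new, mul_one, mul_inv_cancel_left] at h2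
    exact h2.symm
  have ρN : ∀ x y : G × J, x.1⁻¹ * y.1 ∉ S → ρ x y = u x y := by
    intro x y h
    rw [hρ]
    dsimp only
    rw [if_neg h]
  -- writing a pair of points of the same piece
  have hwr : ∀ (x y : G × J), x.1⁻¹ * y.1 ∈ S → ∃ s ∈ S, y = (x.1 * s, y.2) := by
    intro x y h
    refine ⟨_, h, ?_⟩
    rw [mul_inv_cancel_left]
  have hSsymm : ∀ x y : G × J, x.1⁻¹ * y.1 ∈ S → y.1⁻¹ * x.1 ∈ S := by
    intro x y h
    have := S.inv_mem h
    rwa [mul_inv_rev, inv_inv] at this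
  have ρself : ∀ x, ρ x x = 0 := by
    intro x
    have := ρS x.1 1 x.2 x.2 S.one_mem
    rw [mul_one] at this
    rw [show x = (x.1, x.2) from rfl, this, δself _ (z1 _)]
  have ρsymm : ∀ x y, ρ x y = ρ y x := by
    intro x y
    by_cases h : x.1⁻¹ * y.1 ∈ S
    · obtain ⟨s, hs, hy⟩ := hwr x y h
      have e1 := ρS2 x.1 1 s x.2 y.2 S.one_mem hs
      have e2 := ρS2 x.1 s 1 y.2 x.2 hs S.one_mem
      rw [mul_one] at e1 e2
      rw [hy, show x = (x.1, x.2) from rfl]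
      dsimp only
      rw [e1, e2, δsymm _ (z1 _) _ (zn s hs _)]
    · rw [ρN x y h, ρN y x (fun h' => h (hSsymm y x h')), usymm]
  have ρpos : ∀ x y, x ≠ y → 0 < ρ x y := by
    intro x y hxy
    by_cases h : x.1⁻¹ * y.1 ∈ S
    · obtain ⟨s, hs, hy⟩ := hwr x y h
      have e1 := ρS x.1 s x.2 y.2 hs
      rw [hy, show x = (x.1, x.2) from rfl]
      dsimp only
      rw [e1]
      refine δpos _ (z1 _) _ (zn s hs _) (fun h' => hxy ?_)
      obtain ⟨h1, h2⟩ := Ex.new_inj h'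
      rw [hy, ← h1, ← h2, mul_one]
    · rw [ρN x y h]
      obtain ⟨m, hm⟩ := umem x y
      rw [hm]
      have := fpos x m
      have := fpos y m
      linarith
  have g1 : ∀ x y m, f x m ≤ ρ x y + f y m := by
    intro x y m
    by_cases h : x.1⁻¹ * y.1 ∈ S
    · obtain ⟨s, hs, hy⟩ := hwr x y h
      have e1 := ρS x.1 s x.2 y.2 hs
      obtain ⟨c, hc, h1⟩ := ftr' x.1 s y.2 m hs
      have h2 := fle x m c hc
      have h3 := δtri _ (z1 x.2) _ (zn s hs y.2) _ (zo c hc)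
      rw [hy]
      have e1' : ρ x (x.1 * s, y.2) = δ (Ex.new M 1 x.2) (Ex.new M s y.2) := e1
      rw [e1', h1]
      linarith
    · rw [ρN x y h]
      obtain ⟨m', hm⟩ := umem x y
      rw [hm]
      have h1 := f1 x m m'
      have h2 := f2 y m' m
      linarith
  have g2 : ∀ x y m, ρ x y ≤ f x m + f y m := by
    intro x y m
    by_cases h : x.1⁻¹ * y.1 ∈ S
    · obtain ⟨s, hs, hy⟩ := hwr x y h
      have e1' : ρ x (x.1 * s, y.2) = δ (Ex.new M 1 x.2) (Ex.new M s y.2) := ρS x.1 s x.2 y.2 hs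
      obtain ⟨c', hc', h1⟩ := ftr' x.1 s y.2 m hs
      obtain ⟨c, hc, h2⟩ := fmem x m
      rw [hy, e1', h1, h2]
      have h3 := δtri _ (z1 x.2) _ (zo c hc) _ (zn s hs y.2)
      have h4 := δtri _ (zo c hc) _ (zo c' hc') _ (zn s hs y.2)
      rw [δold c hc c' hc'] at h4
      rw [δsymm _ (zo c' hc') _ (zn s hs y.2)] at h4
      have h5 := hd.tri (x.1 • c) m (x.1 • c')
      rw [hinv, hd.symm m] at h5
      linarith
    · rw [ρN x y h]
      exact ule x y m
  -- the metric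
  have hmet : IsMet (gl d f ρ) := by
    refine gl_isMet d f ρ hd fpos f1 f2 ρself ρpos ρsymm g1 g2 (fun x y => x.1⁻¹ * y.1 ∈ S) ?_ ?_
    · intro x y h
      rw [ρN x y h]
      exact umem x y
    · intro x y z h1 h2
      obtain ⟨s, hs, hy⟩ := hwr x y h1
      obtain ⟨s', hs', hz⟩ := hwr x z (by
        have := S.mul_mem h1 h2
        rwa [mul_assoc, mul_inv_cancel_left] at this)
      have e1 : ρ x (x.1 * s, y.2) = δ (Ex.new M 1 x.2) (Ex.new M s y.2) := ρS x.1 s x.2 y.2 hs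
      have e2 : ρ x (x.1 * s', z.2) = δ (Ex.new M 1 x.2) (Ex.new M s' z.2) := ρS x.1 s' x.2 z.2 hs'
      have e3 := ρS2 x.1 s s' y.2 z.2 hs hs'
      rw [hy, hz, e1, e2, e3]
      exact δtri _ (z1 _) _ (zn s hs _) _ (zn s' hs' _)
  refine ⟨gl d f ρ, hmet, ?_, fun x y => rfl, ?_⟩
  · rintro g (m | x) (m' | y)
    · exact hinv g m m'
    · exact finv g y m
    · exact finv g x m'
    · show ρ (g * x.1, x.2) (g * y.1, y.2) = ρ x y
      have e : (g * x.1)⁻¹ * (g * y.1) = x.1⁻¹ * y.1 := by group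
      by_cases h : x.1⁻¹ * y.1 ∈ S
      · rw [hρ]
        dsimp only
        rw [e, if_pos h, if_pos h]
      · rw [ρN x y h, ρN _ _ (by dsimp only; rwa [e])]
        rw [hu]
        dsimp only
        congr 1
        funext c
        rw [mul_smul, finv, finv]
  · -- the restriction to `Zs`
    have hnew : ∀ (s : G) (j : J) (c : M), s ∈ S → c ∈ C → f (s, j) c =
        δ (Ex.new M s j) (Ex.old J c) := by
      intro s j c hs hc
      apply le_antisymm
      · have h1 := ftr 1 s j c hs c hc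
        rw [one_smul, hd.self, add_zero, one_mul] at h1
        exact h1
      · obtain ⟨c', hc', h'⟩ := ftr' 1 s j c hs
        rw [one_mul, one_smul] at h'
        rw [h', ← δold c' hc' c hc]
        exact δtri _ (zn s hs j) _ (zo c' hc') _ (zo c hc)
    intro x hx y hy
    rcases Ex.cases x with ⟨a, rfl⟩ | ⟨g, j, rfl⟩
    · rcases Ex.cases y with ⟨b, rfl⟩ | ⟨h, i, rfl⟩
      · exact (δold a (Zs_old.1 hx) b (Zs_old.1 hy)).symm
      · show f (h, i) a = _
        rw [hnew h i a (Zs_new.1 hy) (Zs_old.1 hx), δsymm _ hy _ hx]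
    · rcases Ex.cases y with ⟨b, rfl⟩ | ⟨h, i, rfl⟩
      · show f (g, j) b = _
        rw [hnew g j b (Zs_new.1 hx) (Zs_old.1 hy)]
      · show ρ (g, j) (h, i) = _
        have := ρS2 1 g h j i (Zs_new.1 hx) (Zs_new.1 hy)
        rwa [one_mul, one_mul] at this

end amalg

/-! ### The case of an empty set of old points -/

section amalg0

variable {G M J : Type} [Group G] [MulAction G M] [Nonempty M]

theorem amalg0 (d : M → M → ℚ) (hd : IsMet d) (hinv : ∀ (g : G) x y, d (g • x) (g • y) = d x y)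
    (S : Subgroup G) (hSf : Finite S) [Finite J] (δ : Ex G M J → Ex G M J → ℚ)
    (δself : ∀ x ∈ Zs S (∅ : Set M) J, δ x x = 0)
    (δpos : ∀ x ∈ Zs S (∅ : Set M) J, ∀ y ∈ Zs S (∅ : Set M) J, x ≠ y → 0 < δ x y)
    (δsymm : ∀ x ∈ Zs S (∅ : Set M) J, ∀ y ∈ Zs S (∅ : Set M) J, δ x y = δ y x)
    (δtri : ∀ x ∈ Zs S (∅ : Set M) J, ∀ y ∈ Zs S (∅ : Set M) J, ∀ z ∈ Zs S (∅ : Set M) J,
      δ x z ≤ δ x y + δ y z)
    (δinv : ∀ s ∈ S, ∀ x ∈ Zs S (∅ : Set M) J, ∀ y ∈ Zs S (∅ : Set M) J,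
      δ (s • x) (s • y) = δ x y) :
    ∃ ρ : Ex G M J → Ex G M J → ℚ, IsMet ρ ∧ (∀ (g : G) x y, ρ (g • x) (g • y) = ρ x y) ∧
      (∀ x y, ρ (Ex.old J x) (Ex.old J y) = d x y) ∧
      ∀ x ∈ Zs S (∅ : Set M) J, ∀ y ∈ Zs S (∅ : Set M) J, ρ x y = δ x y := by
  classical
  obtain ⟨c₀⟩ : Nonempty M := inferInstance
  have hfin : (Set.range (fun s : S => (s : G) • c₀)).Finite := Set.finite_range _
  set C : Finset M := hfin.toFinset with hC
  have hCm : ∀ c, c ∈ C ↔ ∃ s : S, (s : G) • c₀ = c := by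
    intro c
    rw [hC, Set.Finite.mem_toFinset]
    rfl
  have hne : C.Nonempty := ⟨c₀, (hCm c₀).2 ⟨1, one_smul G c₀⟩⟩
  have hSC : ∀ s ∈ S, ∀ c ∈ C, s • c ∈ C := by
    intro s hs c hc
    obtain ⟨s', hs'⟩ := (hCm c).1 hc
    exact (hCm _).2 ⟨⟨s, hs⟩ * s', by rw [← hs', Subgroup.coe_mul, mul_smul]⟩
  -- a large constant
  obtain ⟨K, hK0, hK1, hK2⟩ : ∃ K : ℚ, 0 < K ∧ (∀ c ∈ C, ∀ c' ∈ C, d c c' ≤ 2 * K) ∧
      ∀ s ∈ S, ∀ j, ∀ s' ∈ S, ∀ j', δ (Ex.new M s j) (Ex.new M s' j') ≤ 2 * K := by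
    have b1 : (Set.range (fun q : C × C => d q.1 q.2)).Finite := Set.finite_range _
    have b2 : (Set.range (fun q : (S × J) × (S × J) =>
      δ (Ex.new M (q.1.1 : G) q.1.2) (Ex.new M (q.2.1 : G) q.2.2))).Finite := Set.finite_range _
    obtain ⟨K1, h1⟩ := b1.bddAbove
    obtain ⟨K2, h2⟩ := b2.bddAbove
    refine ⟨|K1| + |K2| + 1, by positivity, ?_, ?_⟩
    · intro c hc c' hc'
      have := h1 ⟨(⟨c, hc⟩, ⟨c', hc'⟩), rfl⟩
      dsimp only at this
      have a1 := le_abs_self K1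
      have a2 := abs_nonneg K2
      have a3 := abs_nonneg K1
      linarith
    · intro s hs j s' hs' j'
      have := h2 ⟨((⟨s, hs⟩, j), (⟨s', hs'⟩, j')), rfl⟩
      dsimp only at this
      have a1 := le_abs_self K2
      have a2 := abs_nonneg K1
      have a3 := abs_nonneg K2
      linarith
  -- the metric on the larger set
  set δ' : Ex G M J → Ex G M J → ℚ := fun x y =>
    match x, y with
    | Sum.inl a, Sum.inl b => d a b
    | Sum.inl _, Sum.inr _ => K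
    | Sum.inr _, Sum.inl _ => K
    | Sum.inr p, Sum.inr q => δ (Sum.inr p) (Sum.inr q) with hδ'
  have e1 : ∀ a b, δ' (Ex.old J a) (Ex.old J b) = d a b := fun a b => rfl
  have e2 : ∀ a g j, δ' (Ex.old J a) (Ex.new M g j) = K := fun a g j => rfl
  have e3 : ∀ a g j, δ' (Ex.new M g j) (Ex.old J a) = K := fun a g j => rfl
  have e4 : ∀ g j g' j', δ' (Ex.new M g j) (Ex.new M g' j') = δ (Ex.new M g j) (Ex.new M g' j') :=
    fun _ _ _ _ => rfl
  have zn : ∀ s ∈ S, ∀ j, (Ex.new M s j : Ex G M J) ∈ Zs S (∅ : Set M) J := fun s hs j => Zs_new.2 hs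
  have dnn : ∀ x y, 0 ≤ d x y := by
    intro x y
    by_cases h : x = y
    · rw [h, hd.self]
    · exact (hd.pos x y h).le
  have δnn : ∀ x ∈ Zs S (∅ : Set M) J, ∀ y ∈ Zs S (∅ : Set M) J, 0 ≤ δ x y := by
    intro x hx y hy
    by_cases h : x = y
    · rw [h, δself _ hy]
    · exact (δpos x hx y hy h).le
  obtain ⟨ρ, h1, h2, h3, h4⟩ := amalg d hd hinv S C hne hSC δ' (by
      intro x hx
      rcases Ex.cases x with ⟨a, rfl⟩ | ⟨g, j, rfl⟩
      · rw [e1, hd.self]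
      · rw [e4, δself _ (zn g (Zs_new.1 hx) j)]) (by
      intro x hx y hy hxy
      rcases Ex.cases x with ⟨a, rfl⟩ | ⟨g, j, rfl⟩
      · rcases Ex.cases y with ⟨b, rfl⟩ | ⟨h, i, rfl⟩
        · rw [e1]
          exact hd.pos _ _ (fun h => hxy (congrArg _ h))
        · rw [e2]
          exact hK0
      · rcases Ex.cases y with ⟨b, rfl⟩ | ⟨h, i, rfl⟩
        · rw [e3]
          exact hK0
        · rw [e4]
          exact δpos _ (zn g (Zs_new.1 hx) j) _ (zn h (Zs_new.1 hy) i) hxy) (by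
      intro x hx y hy
      rcases Ex.cases x with ⟨a, rfl⟩ | ⟨g, j, rfl⟩
      · rcases Ex.cases y with ⟨b, rfl⟩ | ⟨h, i, rfl⟩
        · rw [e1, e1, hd.symm]
        · rw [e2, e3]
      · rcases Ex.cases y with ⟨b, rfl⟩ | ⟨h, i, rfl⟩
        · rw [e2, e3]
        · rw [e4, e4, δsymm _ (zn g (Zs_new.1 hx) j) _ (zn h (Zs_new.1 hy) i)]) (by
      intro x hx y hy z hz
      rcases Ex.cases x with ⟨a, rfl⟩ | ⟨g, j, rfl⟩
      · rcases Ex.cases y with ⟨b, rfl⟩ | ⟨h, i, rfl⟩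
        · rcases Ex.cases z with ⟨c, rfl⟩ | ⟨l, k, rfl⟩
          · rw [e1, e1, e1]
            exact hd.tri _ _ _
          · rw [e1, e2, e2]
            have := dnn a b
            linarith
        · rcases Ex.cases z with ⟨c, rfl⟩ | ⟨l, k, rfl⟩
          · rw [e1, e2, e3]
            have := hK1 a (Zs_old.1 hx) c (Zs_old.1 hz)
            linarith
          · rw [e2, e2, e4]
            have := δnn _ (zn h (Zs_new.1 hy) i) _ (zn l (Zs_new.1 hz) k)
            linarith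
      · rcases Ex.cases y with ⟨b, rfl⟩ | ⟨h, i, rfl⟩
        · rcases Ex.cases z with ⟨c, rfl⟩ | ⟨l, k, rfl⟩
          · rw [e1, e3, e3]
            have := dnn b c
            linarith
          · rw [e2, e3, e4]
            have := hK2 g (Zs_new.1 hx) j l (Zs_new.1 hz) k
            linarith
        · rcases Ex.cases z with ⟨c, rfl⟩ | ⟨l, k, rfl⟩
          · rw [e3, e3, e4]
            have := δnn _ (zn g (Zs_new.1 hx) j) _ (zn h (Zs_new.1 hy) i)
            linarith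
          · rw [e4, e4, e4]
            exact δtri _ (zn g (Zs_new.1 hx) j) _ (zn h (Zs_new.1 hy) i) _
              (zn l (Zs_new.1 hz) k)) (by
      intro s hs x hx y hy
      rcases Ex.cases x with ⟨a, rfl⟩ | ⟨g, j, rfl⟩
      · rcases Ex.cases y with ⟨b, rfl⟩ | ⟨h, i, rfl⟩
        · rw [Ex.smul_old, Ex.smul_old, e1, e1, hinv]
        · rw [Ex.smul_old, Ex.smul_new, e2, e2]
      · rcases Ex.cases y with ⟨b, rfl⟩ | ⟨h, i, rfl⟩
        · rw [Ex.smul_old, Ex.smul_new, e3, e3]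
        · rw [Ex.smul_new, Ex.smul_new, e4, e4, ← δinv s hs _ (zn g (Zs_new.1 hx) j) _
            (zn h (Zs_new.1 hy) i), Ex.smul_new, Ex.smul_new]) (fun c _ c' _ => e1 c c')
  refine ⟨ρ, h1, h2, h3, ?_⟩
  intro x hx y hy
  rcases Ex.cases x with ⟨a, rfl⟩ | ⟨g, j, rfl⟩
  · exact absurd (Zs_old.1 hx) (Set.notMem_empty a)
  · rcases Ex.cases y with ⟨b, rfl⟩ | ⟨h, i, rfl⟩
    · exact absurd (Zs_old.1 hy) (Set.notMem_empty b)
    · rw [h4 _ (Zs_new.2 (Zs_new.1 hx)) _ (Zs_new.2 (Zs_new.1 hy)), e4]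

end amalg0

theorem sea : S_SEA := by
  classical
  intro G M _ _ _ r hr hinv J _ S C D hD
  obtain ⟨d, hd, rfl⟩ := hr
  have hdinv : ∀ (g : G) x y, d (g • x) (g • y) = d x y := by
    intro g x y
    have h1 := congrFun (congrFun (hinv g) (d x y)) ![x, y]
    have h2 : (d (g • x) (g • y) = d x y) = (d x y = d x y) := h1
    rw [h2]
  obtain ⟨d₀, hd₀, he⟩ := hD.cls
  set δ : Ex G M J → Ex G M J → ℚ := fun x y =>
    if h : x ∈ Zs S C J ∧ y ∈ Zs S C J then d₀ ⟨x, h.1⟩ ⟨y, h.2⟩ else 0 with hδ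
  have hδv : ∀ x (hx : x ∈ Zs S C J) y (hy : y ∈ Zs S C J), δ x y = d₀ ⟨x, hx⟩ ⟨y, hy⟩ := by
    intro x hx y hy
    rw [hδ]
    dsimp only
    rw [dif_pos ⟨hx, hy⟩]
  have hDδ : ∀ (q : ℚ) (v : Fin 2 → Ex G M J), (∀ l, v l ∈ Zs S C J) →
      (D q v ↔ δ (v 0) (v 1) = q) := by
    intro q v hv
    have h1 := congrFun (congrFun he q) (fun l => ⟨v l, hv l⟩)
    have h2 : D q v = (d₀ ⟨v 0, hv 0⟩ ⟨v 1, hv 1⟩ = q) := h1
    rw [h2, hδv _ (hv 0) _ (hv 1)]
  have hZmem : ∀ x ∈ Zs S C J, ∀ y ∈ Zs S C J, ∀ l : Fin 2,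
      (![x, y] : Fin 2 → Ex G M J) l ∈ Zs S C J := by
    intro x hx y hy l
    fin_cases l <;> assumption
  have δself : ∀ x ∈ Zs S C J, δ x x = 0 := fun x hx => by
    rw [hδv x hx x hx, hd₀.self]
  have δpos : ∀ x ∈ Zs S C J, ∀ y ∈ Zs S C J, x ≠ y → 0 < δ x y := fun x hx y hy h => by
    rw [hδv x hx y hy]
    exact hd₀.pos _ _ (fun h' => h (congrArg Subtype.val h'))
  have δsymm : ∀ x ∈ Zs S C J, ∀ y ∈ Zs S C J, δ x y = δ y x := fun x hx y hy => by
    rw [hδv x hx y hy, hδv y hy x hx, hd₀.symm]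
  have δtri : ∀ x ∈ Zs S C J, ∀ y ∈ Zs S C J, ∀ z ∈ Zs S C J, δ x z ≤ δ x y + δ y z :=
    fun x hx y hy z hz => by
    rw [hδv x hx y hy, hδv y hy z hz, hδv x hx z hz]
    exact hd₀.tri _ _ _
  have δinv : ∀ s ∈ S, ∀ x ∈ Zs S C J, ∀ y ∈ Zs S C J, δ (s • x) (s • y) = δ x y := by
    intro s hs x hx y hy
    have h1 := hD.Dinv s hs (δ x y) ![x, y] (hZmem x hx y hy)
    rw [hDδ _ _ (hZmem x hx y hy), vec2_map,
      hDδ _ _ (hZmem _ (Zs_smul hD.inv hs hx) _ (Zs_smul hD.inv hs hy))] at h1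
    exact h1.2 rfl
  have δold : ∀ c ∈ C, ∀ c' ∈ C, δ (Ex.old J c) (Ex.old J c') = d c c' := by
    intro c hc c' hc'
    have h1 := hD.Dr (d c c') ![c, c'] (fun l => by fin_cases l <;> assumption)
    rw [vec2_map, hDδ _ _ (hZmem _ (Zs_old.2 hc) _ (Zs_old.2 hc'))] at h1
    exact h1.2 rfl
  -- the metric
  obtain ⟨ρ, h1, h2, h3, h4⟩ : ∃ ρ : Ex G M J → Ex G M J → ℚ, IsMet ρ ∧
      (∀ (g : G) x y, ρ (g • x) (g • y) = ρ x y) ∧
      (∀ x y, ρ (Ex.old J x) (Ex.old J y) = d x y) ∧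
      ∀ x ∈ Zs S C J, ∀ y ∈ Zs S C J, ρ x y = δ x y := by
    have hCf := hD.finC
    rcases Set.eq_empty_or_nonempty C with hC | hC
    · subst hC
      exact amalg0 d hd hdinv S hD.finS δ δself δpos δsymm δtri δinv
    · have hCc : ((hCf.toFinset : Finset M) : Set M) = C := hCf.coe_toFinset
      have := amalg d hd hdinv S hCf.toFinset (by simpa using hC)
        (fun s hs c hc => by
          rw [Set.Finite.mem_toFinset] at hc ⊢
          exact hD.inv s hs c hc) δ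
        (by rw [hCc]; exact δself) (by rw [hCc]; exact δpos) (by rw [hCc]; exact δsymm)
        (by rw [hCc]; exact δtri) (by rw [hCc]; exact δinv)
        (fun c hc c' hc' => δold c (by simpa using hc) c' (by simpa using hc'))
      rw [hCc] at this
      exact this
  refine ⟨mstr ρ, ⟨ρ, h1, rfl⟩, ?_, ?_, ?_⟩
  · intro g
    funext q v
    show (ρ (g • v 0) (g • v 1) = q) = (ρ (v 0) (v 1) = q)
    rw [h2]
  · funext q v
    show (ρ (Ex.old J (v 0)) (Ex.old J (v 1)) = q) = (d (v 0) (v 1) = q)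
    rw [h3]
  · intro q v hv
    rw [hDδ q v hv, ← h4 _ (hv 0) _ (hv 1)]
    rfl

end Q175.SK
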